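import Pool.Agent.Lib.MP_576b63_co.Main

/-! Enumeration of a countable set along an injective rank function. -/

set_option autoImplicit false

namespace Pool.MP_576b63_co

/-- an infinite type with an injective rank function can be enumerated by increasing rank -/
theorem exists_enum {α : Type} [Infinite α] (f : α → ℕ) (hf : Function.Injective f) :
    ∃ a : ℕ+ ≃ α, StrictMono fun i => f (a i) := by
  classical
  let s : Set ℕ := Set.range f
  have hs : s.Infinite := Set.infinite_range_of_injective hf
  have : Infinite s := hs.to_subtype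
  let e1 : ℕ ≃o s := Nat.Subtype.orderIsoOfNat s
  let e2 : α ≃ s := Equiv.ofInjective f hf
  let e3 : ℕ+ ≃o ℕ := OrderIso.pnatIsoNat
  refine ⟨(e3.toEquiv.trans e1.toEquiv).trans e2.symm, ?_⟩
  intro i j hij
  have h : ∀ i, f (((e3.toEquiv.trans e1.toEquiv).trans e2.symm) i) = (e1 (e3 i) : ℕ) := by
    intro i
    have h1 : e2 (((e3.toEquiv.trans e1.toEquiv).trans e2.symm) i) = e1 (e3 i) := by
      simp
    have h2 : ∀ x, (e2 x : ℕ) = f x := fun x => rfl
    rw [← h2, h1]
  simp only [h]
  exact e1.strictMono (e3.strictMono hij)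

end Pool.MP_576b63_co
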