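import Mathlib

/-! Binary keys, thresholds and levels for a linear order of type omega on the natural numbers
without monotone four term arithmetic progressions. -/

set_option autoImplicit false

namespace Pool.MP_576b63_co

/-- the bit of weight `2 ^ w` of `x` -/
def bt (w x : ℕ) : ℕ := x / 2 ^ w % 2

theorem bt_lt (w x : ℕ) : bt w x < 2 := Nat.mod_lt _ (by norm_num)

theorem bt_succ (w x : ℕ) : bt (w + 1) x = bt w (x / 2) := by
  unfold bt
  rw [pow_succ', Nat.div_div_eq_div_mul]

/-- the lowest `m` bits of `x` read as a binary expansion starting with the lowest bit, where the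
lowest `k` bits are complemented -/
def key : ℕ → ℕ → ℕ → ℕ
  | _, 0, _ => 0
  | k, m + 1, x => (if 0 < k then 1 - x % 2 else x % 2) * 2 ^ m + key (k - 1) m (x / 2)

theorem key_lt (k m x : ℕ) : key k m x < 2 ^ m := by
  induction m generalizing k x with
  | zero => simp [key]
  | succ m ih =>
    have h1 := ih (k - 1) (x / 2)
    have h2 : (if 0 < k then 1 - x % 2 else x % 2) ≤ 1 := by split_ifs <;> omega
    have h3 : (if 0 < k then 1 - x % 2 else x % 2) * 2 ^ m ≤ 1 * 2 ^ m :=
      Nat.mul_le_mul_right _ h2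
    simp only [key]
    rw [pow_succ]
    omega

theorem mod_two_of_mod {w x y : ℕ} (h : x % 2 ^ (w + 1) = y % 2 ^ (w + 1)) :
    x % 2 = y % 2 ∧ x / 2 % 2 ^ w = y / 2 % 2 ^ w := by
  have h1 : x % 2 ^ (w + 1) % 2 = x % 2 := Nat.mod_mod_of_dvd _ (dvd_pow_self 2 (by omega))
  have h2 : y % 2 ^ (w + 1) % 2 = y % 2 := Nat.mod_mod_of_dvd _ (dvd_pow_self 2 (by omega))
  have h3 : x % 2 ^ (w + 1) / 2 = x / 2 % 2 ^ w := by
    rw [pow_succ', Nat.mod_mul_right_div_self]
  have h4 : y % 2 ^ (w + 1) / 2 = y / 2 % 2 ^ w := by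
    rw [pow_succ', Nat.mod_mul_right_div_self]
  constructor
  · rw [← h1, ← h2, h]
  · rw [← h3, ← h4, h]

/-- comparison of keys at a complemented bit -/
theorem key_lt_key_low {k m w x y : ℕ} (hwm : w < m) (hwk : w < k) (h : x % 2 ^ w = y % 2 ^ w)
    (hx : bt w x = 0) (hy : bt w y = 1) : key k m y < key k m x := by
  induction w generalizing k m x y with
  | zero =>
    obtain ⟨m, rfl⟩ : ∃ m', m = m' + 1 := ⟨m - 1, by omega⟩
    simp only [bt, pow_zero, Nat.div_one] at hx hy
    simp only [key, if_pos hwk, hx, hy]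
    have := key_lt (k - 1) m (y / 2)
    omega
  | succ w ih =>
    obtain ⟨m, rfl⟩ : ∃ m', m = m' + 1 := ⟨m - 1, by omega⟩
    obtain ⟨h1, h2⟩ := mod_two_of_mod h
    rw [bt_succ] at hx hy
    have := ih (k := k - 1) (m := m) (by omega) (by omega) h2 hx hy
    simp only [key, h1]
    omega

/-- comparison of keys at a bit that is not complemented -/
theorem key_lt_key_high {k m w x y : ℕ} (hwm : w < m) (hwk : k ≤ w) (h : x % 2 ^ w = y % 2 ^ w)
    (hx : bt w x = 0) (hy : bt w y = 1) : key k m x < key k m y := by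
  induction w generalizing k m x y with
  | zero =>
    obtain ⟨m, rfl⟩ : ∃ m', m = m' + 1 := ⟨m - 1, by omega⟩
    simp only [bt, pow_zero, Nat.div_one] at hx hy
    have hk : ¬ 0 < k := by omega
    simp only [key, if_neg hk, hx, hy]
    have := key_lt (k - 1) m (x / 2)
    omega
  | succ w ih =>
    obtain ⟨m, rfl⟩ : ∃ m', m = m' + 1 := ⟨m - 1, by omega⟩
    obtain ⟨h1, h2⟩ := mod_two_of_mod h
    rw [bt_succ] at hx hy
    have := ih (k := k - 1) (m := m) (by omega) (by omega) h2 hx hy
    simp only [key, h1]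
    omega

theorem digit_inj {M a b u v : ℕ} (hu : u < M) (hv : v < M) (h : a * M + u = b * M + v) :
    a = b ∧ u = v := by
  have hM : 0 < M := by omega
  have h1 : (a * M + u) / M = a := by
    rw [mul_comm, Nat.mul_add_div hM, Nat.div_eq_of_lt hu, add_zero]
  have h2 : (b * M + v) / M = b := by
    rw [mul_comm, Nat.mul_add_div hM, Nat.div_eq_of_lt hv, add_zero]
  have h3 : a = b := by rw [← h1, ← h2, h]
  subst h3
  exact ⟨rfl, by omega⟩

theorem key_inj {k m x y : ℕ} (h : key k m x = key k m y) : x % 2 ^ m = y % 2 ^ m := by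
  induction m generalizing k x y with
  | zero => simp [Nat.mod_one]
  | succ m ih =>
    simp only [key] at h
    obtain ⟨h3, h4⟩ := digit_inj (key_lt (k - 1) m (x / 2)) (key_lt (k - 1) m (y / 2)) h
    have h6 : x % 2 = y % 2 := by
      split_ifs at h3 <;> omega
    have h5 : ∀ z : ℕ, z % 2 ^ (m + 1) = z % 2 + 2 * (z / 2 % 2 ^ m) := fun z => by
      rw [pow_succ', Nat.mod_mul]
    rw [h5, h5, h6, ih h4]

end Pool.MP_576b63_co
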