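import Pool.Agent.Lib.MP_576b63_co.Order

/-! The order has no monotone four term arithmetic progression. -/

set_option autoImplicit false

namespace Pool.MP_576b63_co

theorem exists_two_pow_mul {d : ℕ} (hd : 0 < d) : ∃ w e, d = 2 ^ w * (2 * e + 1) := by
  obtain ⟨w, m, hm, h⟩ := Nat.exists_eq_two_pow_mul_odd hd.ne'
  obtain ⟨e, rfl⟩ := hm
  exact ⟨w, e, h⟩

theorem bt_add (w e x : ℕ) : bt w (x + 2 ^ w * (2 * e + 1)) = 1 - bt w x := by
  unfold bt
  rw [Nat.add_mul_div_left _ _ (by positivity)]
  omega

theorem mod_add (w e x : ℕ) : (x + 2 ^ w * (2 * e + 1)) % 2 ^ w = x % 2 ^ w :=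
  Nat.add_mul_mod_self_left _ _ _

theorem cmp {x y n w : ℕ} (hx : lev x = n) (hy : lev y = n) (h : x % 2 ^ w = y % 2 ^ w)
    (hb : bt w y = 1 - bt w x) (hw : w < kk (n + 1)) (hF : F x < F y) :
    (w < kk n → bt w x = 1) ∧ (kk n ≤ w → bt w x = 0) := by
  have hx2 := bt_lt w x
  constructor
  · intro hwk
    by_contra h1
    have h2 : bt w x = 0 := by omega
    have := F_low hx hy hwk h h2 (by omega)
    omega
  · intro hwk
    by_contra h1
    have h2 : bt w x = 1 := by omega
    have := F_high hy hx hwk hw h.symm (by omega) h2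
    omega

theorem lt_kk_of_lev {x d w e n : ℕ} (hd : d = 2 ^ w * (2 * e + 1)) (h : lev (x + d) ≤ n) :
    w < kk (n + 1) := by
  have h1 := lt_S_of_lev_le h
  have h2 : w < 2 ^ w := Nat.lt_two_pow_self
  have h3 : 2 ^ w ≤ d := by
    rw [hd]; exact Nat.le_mul_of_pos_right _ (by omega)
  simp only [kk]
  omega

/-- no monotone three term progression inside a level -/
theorem no_three {x d : ℕ} (hd : 0 < d) (h1 : lev (x + d) = lev x)
    (h2 : lev (x + d + d) = lev x) :
    ¬ (F x < F (x + d) ∧ F (x + d) < F (x + d + d)) ∧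
    ¬ (F (x + d) < F x ∧ F (x + d + d) < F (x + d)) := by
  obtain ⟨w, e, he⟩ := exists_two_pow_mul hd
  have hw : w < kk (lev x + 1) := lt_kk_of_lev he h1.le
  have hm1 : (x + d) % 2 ^ w = x % 2 ^ w := by rw [he]; exact mod_add w e x
  have hm2 : (x + d + d) % 2 ^ w = (x + d) % 2 ^ w := by
    conv_lhs => rw [he]
    conv_rhs => rw [he]
    exact mod_add w e _
  have hb1 : bt w (x + d) = 1 - bt w x := by rw [he]; exact bt_add w e x
  have hb2 : bt w (x + d + d) = 1 - bt w (x + d) := by
    conv_lhs => rw [he]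
    conv_rhs => rw [he]
    exact bt_add w e _
  have hx := bt_lt w x
  constructor
  · rintro ⟨h3, h4⟩
    have c1 := cmp rfl h1 hm1.symm hb1 hw h3
    have c2 := cmp h1 h2 hm2.symm hb2 hw h4
    rcases lt_or_ge w (kk (lev x)) with h | h
    · have := c1.1 h; have := c2.1 h; omega
    · have := c1.2 h; have := c2.2 h; omega
  · rintro ⟨h3, h4⟩
    have c1 := cmp h1 rfl hm1 (by omega) hw h3
    have c2 := cmp h2 h1 hm2 (by omega) hw h4
    rcases lt_or_ge w (kk (lev x)) with h | h
    · have := c1.1 h; have := c2.1 h; omega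
    · have := c1.2 h; have := c2.2 h; omega

/-- no increasing four term progression -/
theorem no_inc {a d : ℕ} (hd : 0 < d) (h01 : F a < F (a + d)) (h12 : F (a + d) < F (a + d + d))
    (h23 : F (a + d + d) < F (a + d + d + d)) : False := by
  obtain ⟨w, e, he⟩ := exists_two_pow_mul hd
  have hm : ∀ x, (x + d) % 2 ^ w = x % 2 ^ w := fun x => by rw [he]; exact mod_add w e x
  have hb : ∀ x, bt w (x + d) = 1 - bt w x := fun x => by rw [he]; exact bt_add w e x
  have l01 := lev_le_of_F_le h01.le
  have l12 := lev_le_of_F_le h12.le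
  have l23 := lev_le_of_F_le h23.le
  have hb1 := hb a
  have hb2 := hb (a + d)
  have hb3 := hb (a + d + d)
  have hm1 := hm a
  have hm2 := hm (a + d)
  have hm3 := hm (a + d + d)
  have hba := bt_lt w a
  have ht1 : ¬ (lev (a + d) = lev a ∧ lev (a + d + d) = lev a) := fun h =>
    (no_three hd h.1 h.2).1 ⟨h01, h12⟩
  have ht2 : ¬ (lev (a + d + d) = lev (a + d) ∧ lev (a + d + d + d) = lev (a + d)) := fun h =>
    (no_three hd h.1 h.2).1 ⟨h12, h23⟩
  obtain ⟨n, hn⟩ : ∃ n, lev (a + d + d + d) = n + 1 := ⟨lev (a + d + d + d) - 1, by omega⟩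
  have hR3 : Raised n (a + d + d + d) := raised_of_lt_lev (by omega)
  -- the second term has level `n`
  have l1 : lev (a + d) = n := by
    have h1 : n ≤ lev (a + d) := by
      rcases n with _ | n
      · exact Nat.zero_le _
      · have h2 := S_le_of_raised hR3
        exact lt_lev_iff.2 (raised_of_S_le (by omega))
    omega
  have hw : w < kk (n + 1) := lt_kk_of_lev he l1.le
  have hN1 : ¬ Raised n (a + d) := l1 ▸ not_raised_lev (a + d)
  rcases (by omega : lev (a + d + d) = n ∨ lev (a + d + d) = n + 1) with l2 | l2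
  · -- the first term has level less than `n`
    have l0 : lev a < n := by omega
    have hN2 : ¬ Raised n (a + d + d) := l2 ▸ not_raised_lev (a + d + d)
    have c := cmp l1 l2 hm2.symm hb2 hw h12
    rcases lt_or_ge w (kk n) with h | h
    · have c1 := c.1 h
      have h4 := two_thr_le h hm3.symm (by omega : bt w (a + d + d) = 0) (by omega)
      unfold Raised at hN2 hR3
      omega
    · have c1 := c.2 h
      have h5 : bt w a = 1 := by omega
      obtain ⟨n, rfl⟩ : ∃ n', n = n' + 1 := ⟨n - 1, by omega⟩
      have h6 : a < S n := lt_S_of_lev_le (by omega)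
      have h7 : a < 2 ^ w := by
        have : S n < 2 ^ S n := Nat.lt_two_pow_self
        have h8 : 2 ^ S n ≤ 2 ^ w := Nat.pow_le_pow_right (by norm_num) h
        omega
      unfold bt at h5
      rw [Nat.div_eq_of_lt h7] at h5
      omega
  · have hR2 : Raised n (a + d + d) := raised_of_lt_lev (by omega)
    have hw2 : w < kk (n + 2) := hw.trans_le (kk_le_succ (n + 1))
    have c := cmp l2 hn hm3.symm hb3 hw2 h23
    have c1 := c.1 hw
    rcases lt_or_ge w (kk n) with h | h
    · have h4 := two_thr_le h hm2.symm (by omega : bt w (a + d) = 0) (by omega)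
      unfold Raised at hN1 hR2
      omega
    · have h5 : bt w a = 1 := by omega
      have h6 : 2 ^ w ≤ a := by
        by_contra h7
        unfold bt at h5
        rw [Nat.div_eq_of_lt (by omega)] at h5
        omega
      have l0 : lev a = n := by
        rcases n with _ | n
        · omega
        · have h7 : S n ≤ a := by
            have : S n < 2 ^ S n := Nat.lt_two_pow_self
            have h8 : 2 ^ S n ≤ 2 ^ w := Nat.pow_le_pow_right (by norm_num) h
            omega
          have := lt_lev_iff.2 (raised_of_S_le h7)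
          omega
      have c2 := (cmp l0 l1 hm1.symm hb1 hw h01).2 h
      omega

/-- no decreasing three term progression -/
theorem no_dec {x d : ℕ} (hd : 0 < d) (h12 : F (x + d) < F x)
    (h23 : F (x + d + d) < F (x + d)) : False := by
  obtain ⟨w, e, he⟩ := exists_two_pow_mul hd
  have hm : ∀ x, (x + d) % 2 ^ w = x % 2 ^ w := fun x => by rw [he]; exact mod_add w e x
  have hb : ∀ x, bt w (x + d) = 1 - bt w x := fun x => by rw [he]; exact bt_add w e x
  have l12 := lev_le_of_F_le h12.le
  have l23 := lev_le_of_F_le h23.le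
  have hb2 := hb x
  have hb3 := hb (x + d)
  have hm2 := hm x
  have hm3 := hm (x + d)
  have hba := bt_lt w x
  have ht2 : ¬ (lev (x + d) = lev x ∧ lev (x + d + d) = lev x) := fun h =>
    (no_three hd h.1 h.2).2 ⟨h12, h23⟩
  obtain ⟨n, hn⟩ : ∃ n, lev x = n + 1 := ⟨lev x - 1, by omega⟩
  have hR1 : Raised n x := raised_of_lt_lev (by omega)
  -- the third term has level `n`
  have l3 : lev (x + d + d) = n := by
    have h1 : n ≤ lev (x + d + d) := by
      rcases n with _ | n
      · exact Nat.zero_le _
      · have h2 := S_le_of_raised hR1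
        exact lt_lev_iff.2 (raised_of_S_le (by omega))
    omega
  have hN3 : ¬ Raised n (x + d + d) := l3 ▸ not_raised_lev (x + d + d)
  have hw : w < kk n := by
    by_contra h
    have h1 : thr n x = thr n (x + d + d) := thr_congr (by omega) ((hm3.trans hm2).symm)
    unfold Raised at hN3 hR1
    omega
  have hw1 : w < kk (n + 1) := hw.trans_le (kk_le_succ n)
  have hw2 : w < kk (n + 2) := hw1.trans_le (kk_le_succ (n + 1))
  rcases (by omega : lev (x + d) = n ∨ lev (x + d) = n + 1) with l2 | l2
  · have hN2 : ¬ Raised n (x + d) := l2 ▸ not_raised_lev (x + d)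
    have c := (cmp l3 l2 hm3 (by omega) hw1 h23).1 hw
    have h4 := two_thr_le hw hm2 (by omega : bt w (x + d) = 0) (by omega)
    unfold Raised at hN2 hR1
    omega
  · have hR2 : Raised n (x + d) := raised_of_lt_lev (by omega)
    have c := (cmp l2 hn hm2 (by omega) hw2 h12).1 hw1
    have h4 := two_thr_le hw hm3 (by omega : bt w (x + d + d) = 0) (by omega)
    unfold Raised at hN3 hR2
    omega

end Pool.MP_576b63_co
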