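import Pool.Agent.Lib.MP_576b63_co.Key

/-! The order: levels given by thresholds depending on residue classes modulo powers of two. -/

set_option autoImplicit false

namespace Pool.MP_576b63_co

/-- the largest threshold of stage `n` -/
def S : ℕ → ℕ
  | 0 => 1
  | n + 1 => 3 * S n * 2 ^ (2 ^ S n - 1)

/-- the number of bits used in stage `n` -/
def kk : ℕ → ℕ
  | 0 => 0
  | n + 1 => S n

/-- the smallest threshold of stage `n` -/
def TT : ℕ → ℕ
  | 0 => 1
  | n + 1 => 3 * S n

theorem S_eq (n : ℕ) : S n = TT n * 2 ^ (2 ^ kk n - 1) := by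
  cases n with
  | zero => simp [S, TT, kk]
  | succ n => rfl

theorem S_pos (n : ℕ) : 0 < S n := by
  induction n with
  | zero => simp [S]
  | succ n ih => simp only [S]; positivity

theorem TT_pos (n : ℕ) : 0 < TT n := by
  cases n with
  | zero => simp [TT]
  | succ n => simp only [TT]; have := S_pos n; omega

theorem three_S_le (n : ℕ) : 3 * S n ≤ S (n + 1) := by
  simp only [S]
  exact Nat.le_mul_of_pos_right _ (by positivity)

theorem S_lt_succ (n : ℕ) : S n < S (n + 1) := by
  have := three_S_le n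
  have := S_pos n
  omega

theorem S_strictMono : StrictMono S := strictMono_nat_of_lt_succ S_lt_succ

theorem lt_S (n : ℕ) : n < S n := by
  induction n with
  | zero => simp [S]
  | succ n ih => have := S_lt_succ n; omega

theorem kk_le_succ (n : ℕ) : kk n ≤ kk (n + 1) := by
  cases n with
  | zero => simp [kk]
  | succ n => simp only [kk]; exact (S_lt_succ n).le

/-- the threshold of the class of `x` in stage `n` -/
def thr (n x : ℕ) : ℕ := TT n * 2 ^ key 0 (kk n) x

theorem TT_le_thr (n x : ℕ) : TT n ≤ thr n x := Nat.le_mul_of_pos_right _ (by positivity)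

theorem thr_le_S (n x : ℕ) : thr n x ≤ S n := by
  rw [S_eq]
  apply Nat.mul_le_mul_left
  apply Nat.pow_le_pow_right (by norm_num)
  have := key_lt 0 (kk n) x
  omega

theorem S_lt_thr (n x : ℕ) : 3 * S n ≤ thr (n + 1) x := TT_le_thr (n + 1) x

/-- `x` is raised in stage `n` -/
def Raised (n x : ℕ) : Prop := thr n x ≤ x

instance (n x : ℕ) : Decidable (Raised n x) := by unfold Raised; infer_instance

theorem exists_not_raised (x : ℕ) : ∃ n, ¬ Raised n x := by
  refine ⟨x + 1, ?_⟩
  unfold Raised
  have h1 := S_lt_thr x x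
  have h2 := lt_S x
  omega

/-- the level of `x` -/
def lev (x : ℕ) : ℕ := Nat.find (exists_not_raised x)

theorem not_raised_lev (x : ℕ) : ¬ Raised (lev x) x := Nat.find_spec (exists_not_raised x)

theorem raised_of_lt_lev {x n : ℕ} (h : n < lev x) : Raised n x := by
  have := Nat.find_min (exists_not_raised x) h
  rwa [not_not] at this

theorem S_le_of_raised {n x : ℕ} (h : Raised (n + 1) x) : 3 * S n ≤ x := (S_lt_thr n x).trans h

theorem raised_of_S_le {n x : ℕ} (h : S n ≤ x) : Raised n x := (thr_le_S n x).trans h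

theorem raised_anti {n m x : ℕ} (h : Raised m x) (hnm : n ≤ m) : Raised n x := by
  rcases hnm.eq_or_lt with h1 | h1
  · rw [h1]; exact h
  · obtain ⟨m, rfl⟩ : ∃ m', m = m' + 1 := ⟨m - 1, by omega⟩
    apply raised_of_S_le
    have h2 := S_le_of_raised h
    have h3 : S n ≤ S m := S_strictMono.monotone (by omega)
    omega

theorem lt_lev_iff {n x : ℕ} : n < lev x ↔ Raised n x := by
  refine ⟨raised_of_lt_lev, fun h => ?_⟩
  by_contra h2
  exact not_raised_lev x (raised_anti h (by omega))

theorem lt_S_lev (x : ℕ) : x < S (lev x) := by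
  by_contra h
  exact not_raised_lev x (raised_of_S_le (by omega))

theorem lt_S_of_lev_le {x n : ℕ} (h : lev x ≤ n) : x < S n :=
  (lt_S_lev x).trans_le (S_strictMono.monotone h)

/-- the rank function -/
def F (x : ℕ) : ℕ := 2 ^ kk (lev x + 1) + key (kk (lev x)) (kk (lev x + 1)) x

theorem F_lt_of_lev_lt {x y : ℕ} (h : lev x < lev y) : F x < F y := by
  unfold F
  have h1 := key_lt (kk (lev x)) (kk (lev x + 1)) x
  have h2 : 2 ^ (kk (lev x + 1) + 1) ≤ 2 ^ kk (lev y + 1) := by
    apply Nat.pow_le_pow_right (by norm_num)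
    simp only [kk]
    exact S_strictMono h
  rw [pow_succ] at h2
  omega

theorem lev_le_of_F_le {x y : ℕ} (h : F x ≤ F y) : lev x ≤ lev y := by
  by_contra h2
  have := F_lt_of_lev_lt (x := y) (y := x) (by omega)
  omega

theorem F_injective : Function.Injective F := by
  intro x y h
  have h1 : lev x = lev y := le_antisymm (lev_le_of_F_le h.le) (lev_le_of_F_le h.ge)
  have h2 : key (kk (lev x)) (kk (lev x + 1)) x = key (kk (lev x)) (kk (lev x + 1)) y := by
    unfold F at h
    rw [← h1] at h
    omega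
  have h3 := key_inj h2
  have hx : x < 2 ^ kk (lev x + 1) := (lt_S_lev x).trans Nat.lt_two_pow_self
  have hy : y < 2 ^ kk (lev x + 1) := by
    rw [h1]; exact (lt_S_lev y).trans Nat.lt_two_pow_self
  rwa [Nat.mod_eq_of_lt hx, Nat.mod_eq_of_lt hy] at h3

/-- comparison inside a level at a low bit: the number with bit `0` is later -/
theorem F_low {x y n w : ℕ} (hx : lev x = n) (hy : lev y = n) (hw : w < kk n)
    (h : x % 2 ^ w = y % 2 ^ w) (hbx : bt w x = 0) (hby : bt w y = 1) : F y < F x := by
  unfold F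
  rw [hx, hy]
  have := key_lt_key_low (m := kk (n + 1)) (hw.trans_le (kk_le_succ n)) hw h hbx hby
  omega

/-- comparison inside a level at a high bit: the number with bit `1` is later -/
theorem F_high {x y n w : ℕ} (hx : lev x = n) (hy : lev y = n) (hw : kk n ≤ w)
    (hw' : w < kk (n + 1)) (h : x % 2 ^ w = y % 2 ^ w) (hbx : bt w x = 0) (hby : bt w y = 1) :
    F x < F y := by
  unfold F
  rw [hx, hy]
  have := key_lt_key_high (m := kk (n + 1)) hw' hw h hbx hby
  omega

/-- thresholds of two classes that differ first at a low bit -/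
theorem two_thr_le {x y n w : ℕ} (hw : w < kk n) (h : x % 2 ^ w = y % 2 ^ w) (hbx : bt w x = 0)
    (hby : bt w y = 1) : 2 * thr n x ≤ thr n y := by
  unfold thr
  have h1 := key_lt_key_high (k := 0) (m := kk n) hw (by omega) h hbx hby
  calc 2 * (TT n * 2 ^ key 0 (kk n) x) = TT n * 2 ^ (key 0 (kk n) x + 1) := by rw [pow_succ]; ring
    _ ≤ TT n * 2 ^ key 0 (kk n) y :=
      Nat.mul_le_mul_left _ (Nat.pow_le_pow_right (by norm_num) h1)

theorem key_congr {k m x y : ℕ} (h : x % 2 ^ m = y % 2 ^ m) : key k m x = key k m y := by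
  induction m generalizing k x y with
  | zero => rfl
  | succ m ih =>
    obtain ⟨h1, h2⟩ := mod_two_of_mod h
    simp only [key, h1, ih h2]

theorem thr_congr {x y n w : ℕ} (hw : kk n ≤ w) (h : x % 2 ^ w = y % 2 ^ w) :
    thr n x = thr n y := by
  unfold thr
  rw [key_congr]
  have h1 : x % 2 ^ w % 2 ^ kk n = x % 2 ^ kk n := Nat.mod_mod_of_dvd _ (pow_dvd_pow 2 hw)
  have h2 : y % 2 ^ w % 2 ^ kk n = y % 2 ^ kk n := Nat.mod_mod_of_dvd _ (pow_dvd_pow 2 hw)
  rw [← h1, ← h2, h]

end Pool.MP_576b63_co
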