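import Pool.Agent.Lib.MP_576b63_co.ZMain

/-! Progressions which use both sides. -/

set_option autoImplicit false

namespace Pool.MP_576b63_co.ZZ

open Pool.MP_576b63_co

variable {K : ℕ}

theorem sg_lt_of_F_lt {c c' x y : ℕ} (hcc : c + c' = 1) (h : F K c' x < F K c y) :
    sg K c' x < sg K c y := by
  have h1 := sg_le_of_F_le h.le
  unfold sg at h1 ⊢
  omega

theorem bt_compl {x y w q : ℕ} (h : x + y + 1 = 2 ^ (w + 1) * q) : bt w x + bt w y = 1 := by
  unfold bt
  have hx := Nat.div_add_mod x (2 ^ w)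
  have hy := Nat.div_add_mod y (2 ^ w)
  have hr := Nat.mod_lt x (show 0 < 2 ^ w by positivity)
  have ht := Nat.mod_lt y (show 0 < 2 ^ w by positivity)
  generalize x / 2 ^ w = a at *
  generalize y / 2 ^ w = b at *
  generalize x % 2 ^ w = r at *
  generalize y % 2 ^ w = t at *
  have h1 : 2 ^ w * (a + b) + (r + t + 1) = 2 ^ w * (2 * q) := by
    rw [pow_succ] at h
    rw [← hx, ← hy] at h
    linarith
  have h2 : 2 ^ w ∣ r + t + 1 :=
    (Nat.dvd_add_right (dvd_mul_right _ _)).1 (h1 ▸ dvd_mul_right _ _)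
  obtain ⟨u, hu⟩ := h2
  have h3 : u = 1 := by
    rcases u with _ | _ | u
    · omega
    · rfl
    · exfalso
      have : 2 ^ w * (u + 1 + 1) = 2 ^ w * u + 2 ^ w + 2 ^ w := by ring
      omega
  subst h3
  have h4 : 2 ^ w * (a + b + 1) = 2 ^ w * (2 * q) := by
    rw [← h1, hu]; ring
  have h5 : a + b + 1 = 2 * q := Nat.eq_of_mul_eq_mul_left (by positivity) h4
  omega

/-- two terms on one side and three on the other -/
theorem cross23 {c c' p v d : ℕ} (hcc : c + c' = 1) (hd : d = v + p + 1)
    (h0 : F K c' (v + d) < F K c' v) (h1 : F K c' v < F K c p)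
    (h2 : F K c p < F K c (p + d)) (h3 : F K c (p + d) < F K c (p + d + d)) : False := by
  have hv : v + d < S K (sg K c' v) := lt_S_of_sg_le (sg_le_of_F_le h0.le)
  have hp : sg K c' v < sg K c p := sg_lt_of_F_lt hcc h1
  have h4 : sg K c p ≤ sg K c (p + d) := sg_le_of_F_le h2.le
  have h5 : sg K c (p + d) ≤ sg K c (p + d + d) := sg_le_of_F_le h3.le
  have h6 : sg K c (p + d + d) ≤ sg K c' v + 1 :=
    sg_le_of_lt (n := lev K c' v + c') (by unfold sg; omega) (by omega)
  exact (no_three (K := K) (c := c) (x := p) (d := d) (by omega) (by omega) (by omega)).1 ⟨h2, h3⟩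

/-- two terms on each side: the node is not resolved -/
theorem cross22 {c c' p v d w e : ℕ} (hcc : c + c' = 1) (hd : d = v + p + 1)
    (he : d = 2 ^ w * (2 * e + 1))
    (h0 : F K c' (v + d) < F K c' v) (h1 : F K c' v < F K c p)
    (h2 : F K c p < F K c (p + d)) : ∃ s, kk K s ≤ w ∧ d ≤ 2 * S K s := by
  by_contra hcon
  push Not at hcon
  have hm : ∀ x, (x + d) % 2 ^ w = x % 2 ^ w := fun x => by rw [he]; exact mod_add w e x
  have hb : ∀ x, bt w (x + d) = 1 - bt w x := fun x => by rw [he]; exact bt_add w e x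
  have hbv := bt_lt w v
  have hb1 := hb v
  have hle := sg_le_of_F_le h0.le
  have hv0 : v + d < S K (sg K c' (v + d)) := lt_S_sg c' (v + d)
  have hw0 : w < kk K (sg K c' (v + d)) := by
    by_contra h
    have := hcon _ (not_lt.1 h)
    omega
  -- the first term has bit `1`
  have hbit : bt w (v + d) = 1 := by
    rcases hle.eq_or_lt with hs | hs
    · exact (cmp rfl hs.symm (hm v) (by omega) (hw0.trans_le (kk_le_succ _)) h0).1 hw0
    · have hR : Raised K (sg K c' (v + d)) v := by
        have h3 : lev K c' (v + d) < lev K c' v := by unfold sg at hs; omega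
        exact raised_of_lt_lev h3
      have hN : ¬ Raised K (sg K c' (v + d)) (v + d) := not_raised_sg c' (v + d)
      by_contra h3
      have h4 := four_thr_le hw0 (hm v) (by omega) (by omega : bt w v = 1)
      unfold Raised at hR hN
      omega
  have hbp : bt w p = 0 := by
    have := bt_compl (x := v + d) (y := p) (w := w) (q := 2 * e + 1) (by
      have : v + d + p + 1 = 2 * d := by omega
      rw [this]
      conv_lhs => rw [he]
      ring)
    omega
  have hv : v + d < S K (sg K c' v) := lt_S_of_sg_le hle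
  have hp : sg K c' v < sg K c p := sg_lt_of_F_lt hcc h1
  have h4 : sg K c p ≤ sg K c (p + d) := sg_le_of_F_le h2.le
  have h6 : sg K c (p + d) ≤ sg K c' v + 1 :=
    sg_le_of_lt (n := lev K c' v + c') (by unfold sg; omega) (by omega)
  have hw1 : w < kk K (sg K c p) := hw0.trans_le (kk_mono (by omega))
  have h7 := (cmp (s := sg K c p) rfl (by omega : sg K c (p + d) = sg K c p) (hm p).symm (hb p)
    (hw1.trans_le (kk_le_succ _)) h2).1 hw1
  omega

/-- one term on one side and three terms on the other: the node is not resolved -/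
theorem cross13 {c c' p v d w e : ℕ} (hcc : c + c' = 1) (hd : d = v + p + 1)
    (he : d = 2 ^ w * (2 * e + 1)) (h0 : F K c' v < F K c p)
    (h1 : F K c p < F K c (p + d)) (h2 : F K c (p + d) < F K c (p + d + d)) :
    ∃ s, kk K s ≤ w ∧ d ≤ 2 * S K s := by
  by_contra hcon
  push Not at hcon
  have hm : ∀ x, (x + d) % 2 ^ w = x % 2 ^ w := fun x => by rw [he]; exact mod_add w e x
  have hb : ∀ x, bt w (x + d) = 1 - bt w x := fun x => by rw [he]; exact bt_add w e x
  have hbp := bt_lt w p
  have hb1 := hb p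
  have hb2 := hb (p + d)
  have hvp : sg K c' v < sg K c p := sg_lt_of_F_lt hcc h0
  have l01 := lev_le_of_F_le h1.le
  have l12 := lev_le_of_F_le h2.le
  have ht : ¬ (lev K c (p + d) = lev K c p ∧ lev K c (p + d + d) = lev K c p) := fun h =>
    (no_three (by omega) (sg_congr h.1) (sg_congr h.2)).1 ⟨h1, h2⟩
  obtain ⟨n, hn⟩ : ∃ n, lev K c (p + d + d) = n + 1 := ⟨lev K c (p + d + d) - 1, by omega⟩
  have hR2 : Raised K (2 * n + c) (p + d + d) := raised_of_lt_lev (by omega)
  have l1 : n ≤ lev K c (p + d) := by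
    rcases n with _ | n
    · exact Nat.zero_le _
    · exact lt_lev_of_three_le hR2 (by omega)
  have hw : ∀ s, d ≤ 2 * S K s → w < kk K s := fun s hs => by
    by_contra h
    have := hcon s (not_lt.1 h)
    omega
  rcases (by omega : lev K c (p + d) = n ∨ lev K c (p + d) = n + 1) with l2 | l2
  · have s2 : sg K c (p + d) = 2 * n + c := by unfold sg; rw [l2]
    have hN : ¬ Raised K (2 * n + c) (p + d) := s2 ▸ not_raised_sg c (p + d)
    have hS : p + d < S K (2 * n + c) := lt_S_of_sg_le s2.le
    have hws : w < kk K (2 * n + c) := hw _ (by omega)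
    rcases l01.eq_or_lt with h3 | h3
    · have s1 : sg K c p = 2 * n + c := by unfold sg; omega
      have h4 := (cmp s1 s2 (hm p).symm hb1 (hws.trans_le (kk_le_succ _)) h1).1 hws
      have h5 := four_thr_le hws (hm (p + d)).symm (by omega : bt w (p + d) = 0) (by omega)
      unfold Raised at hR2 hN
      omega
    · obtain ⟨n, rfl⟩ : ∃ n', n = n' + 1 := ⟨n - 1, by omega⟩
      have s1 : sg K c p ≤ 2 * n + c := by unfold sg; omega
      have h4 : p < S K (2 * n + c) := lt_S_of_sg_le s1
      have h5 : v < S K (2 * n + c) := lt_S_of_sg_le (c := c') (by omega)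
      have h6 := S_le_of_raised (n := 2 * n + 1 + c) (x := p + d + d) (by
        rw [show 2 * n + 1 + c + 1 = 2 * (n + 1) + c by ring]; exact hR2)
      have h7 := three_S_le (K := K) (2 * n + c)
      rw [show 2 * n + c + 1 = 2 * n + 1 + c by ring] at h7
      omega
  · have s2 : sg K c (p + d) = 2 * (n + 1) + c := by unfold sg; rw [l2]
    have s3 : sg K c (p + d + d) = 2 * (n + 1) + c := by unfold sg; rw [hn]
    have hS : p + d < S K (2 * (n + 1) + c) := lt_S_of_sg_le s2.le
    have hws : w < kk K (2 * (n + 1) + c) := hw _ (by omega)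
    have h4 := (cmp s2 s3 (hm (p + d)).symm hb2 (hws.trans_le (kk_le_succ _)) h2).1 hws
    have hR1 : Raised K (2 * n + c) (p + d) := raised_of_lt_lev (by omega)
    have s1 : sg K c p ≤ 2 * n + c := by unfold sg; omega
    have hNp : ¬ Raised K (2 * n + c) p := fun h => by
      have := lt_sg_of_raised (c := c) h
      omega
    obtain ⟨t, ht⟩ : ∃ t, 2 * n + c = t + 1 := ⟨2 * n + c - 1, by omega⟩
    rw [ht] at hNp hR1 s1
    have h5 : v < S K t := lt_S_of_sg_le (c := c') (by omega)
    have h6 : 3 * S K t ≤ thr K (t + 1) p := S_lt_thr t p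
    have h7 : thr K (t + 1) p ≤ S K (t + 1) := thr_le_S _ _
    unfold Raised at hNp hR1
    have hwt : w < kk K (t + 1) := hw _ (by omega)
    have h8 := four_thr_le hwt (hm p).symm (by omega : bt w p = 0) (by omega)
    omega

end Pool.MP_576b63_co.ZZ
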