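import Pool.Agent.Lib.MP_576b63_co.ZCross

/-! The rank of an integer and the progressions of integers. -/

set_option autoImplicit false

namespace Pool.MP_576b63_co.ZZ

open Pool.MP_576b63_co

variable {K : ℕ}

/-- the rank of an integer; the nonnegative integers use the side `c`, the negative ones the
side `c'` -/
def R (K c c' : ℕ) (z : ℤ) : ℕ := if 0 ≤ z then F K c z.toNat else F K c' (-z - 1).toNat

theorem R_nonneg {c c' : ℕ} {z : ℤ} {v : ℕ} (h : z = v) : R K c c' z = F K c v := by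
  subst h
  simp [R]

theorem R_neg {c c' : ℕ} {z : ℤ} {v : ℕ} (h : z = -(v : ℤ) - 1) : R K c c' z = F K c' v := by
  subst h
  have h1 : ¬ (0 : ℤ) ≤ -(v : ℤ) - 1 := by omega
  have h2 : (-(-(v : ℤ) - 1) - 1).toNat = v := by omega
  unfold R
  rw [if_neg h1, h2]

theorem R_refl (c c' : ℕ) (z : ℤ) : R K c c' z = R K c' c (-z - 1) := by
  rcases le_or_gt 0 z with h | h
  · obtain ⟨v, rfl⟩ : ∃ v : ℕ, z = v := ⟨z.toNat, by omega⟩
    rw [R_nonneg rfl, R_neg rfl]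
  · obtain ⟨v, rfl⟩ : ∃ v : ℕ, z = -(v : ℤ) - 1 := ⟨(-z - 1).toNat, by omega⟩
    rw [R_neg rfl, R_nonneg (v := v) (by omega)]

theorem F_ne {c c' x y : ℕ} (hcc : c + c' = 1) : F K c x ≠ F K c' y := by
  intro h
  have h1 : sg K c x = sg K c' y := le_antisymm (sg_le_of_F_le h.le) (sg_le_of_F_le h.ge)
  unfold sg at h1
  omega

theorem R_injective {c c' : ℕ} (hcc : c + c' = 1) : Function.Injective (R K c c') := by
  intro x y h
  rcases le_or_gt 0 x with hx | hx <;> rcases le_or_gt 0 y with hy | hy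
  · obtain ⟨u, rfl⟩ : ∃ v : ℕ, x = v := ⟨x.toNat, by omega⟩
    obtain ⟨v, rfl⟩ : ∃ v : ℕ, y = v := ⟨y.toNat, by omega⟩
    rw [R_nonneg rfl, R_nonneg rfl] at h
    rw [F_injective c h]
  · obtain ⟨u, rfl⟩ : ∃ v : ℕ, x = v := ⟨x.toNat, by omega⟩
    obtain ⟨v, rfl⟩ : ∃ v : ℕ, y = -(v : ℤ) - 1 := ⟨(-y - 1).toNat, by omega⟩
    rw [R_nonneg rfl, R_neg rfl] at h
    exact absurd h (F_ne hcc)
  · obtain ⟨u, rfl⟩ : ∃ v : ℕ, x = -(v : ℤ) - 1 := ⟨(-x - 1).toNat, by omega⟩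
    obtain ⟨v, rfl⟩ : ∃ v : ℕ, y = v := ⟨y.toNat, by omega⟩
    rw [R_nonneg rfl, R_neg rfl] at h
    exact absurd h.symm (F_ne hcc)
  · obtain ⟨u, rfl⟩ : ∃ v : ℕ, x = -(v : ℤ) - 1 := ⟨(-x - 1).toNat, by omega⟩
    obtain ⟨v, rfl⟩ : ∃ v : ℕ, y = -(v : ℤ) - 1 := ⟨(-y - 1).toNat, by omega⟩
    rw [R_neg rfl, R_neg rfl] at h
    rw [F_injective c' h]

/-- a four term progression with positive difference -/
theorem inc4 {c c' D : ℕ} {z : ℤ} (hcc : c + c' = 1) (hD : 0 < D)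
    (h0 : R K c c' z < R K c c' (z + D)) (h1 : R K c c' (z + D) < R K c c' (z + 2 * D))
    (h2 : R K c c' (z + 2 * D) < R K c c' (z + 3 * D)) :
    ∃ s w e, D = 2 ^ w * (2 * e + 1) ∧ kk K s ≤ w ∧ D ≤ 2 * S K s ∧ z < 0 ∧ 0 ≤ z + 2 * D := by
  obtain ⟨w, e, he⟩ := exists_two_pow_mul hD
  rcases le_or_gt 0 z with hz | hz
  · exfalso
    obtain ⟨v, rfl⟩ : ∃ v : ℕ, z = v := ⟨z.toNat, by omega⟩
    rw [R_nonneg (v := v) rfl, R_nonneg (v := v + D) (by push_cast; ring)] at h0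
    rw [R_nonneg (v := v + D) (by push_cast; ring),
      R_nonneg (v := v + D + D) (by push_cast; ring)] at h1
    rw [R_nonneg (v := v + D + D) (by push_cast; ring),
      R_nonneg (v := v + D + D + D) (by push_cast; ring)] at h2
    exact no_inc hD h0 h1 h2
  · rcases le_or_gt 0 (z + D) with hz1 | hz1
    · obtain ⟨p, hp⟩ : ∃ p : ℕ, z + D = p := ⟨(z + D).toNat, by omega⟩
      obtain ⟨v, hv⟩ : ∃ v : ℕ, z = -(v : ℤ) - 1 := ⟨(-z - 1).toNat, by omega⟩
      rw [R_neg hv, R_nonneg hp] at h0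
      rw [R_nonneg hp, R_nonneg (v := p + D) (by push_cast; omega)] at h1
      rw [R_nonneg (v := p + D) (by push_cast; omega),
        R_nonneg (v := p + D + D) (by push_cast; omega)] at h2
      obtain ⟨s, hs1, hs2⟩ := cross13 hcc (by omega) he h0 h1 h2
      exact ⟨s, w, e, he, hs1, hs2, hz, by omega⟩
    · rcases le_or_gt 0 (z + 2 * D) with hz2 | hz2
      · obtain ⟨p, hp⟩ : ∃ p : ℕ, z + 2 * D = p := ⟨(z + 2 * D).toNat, by omega⟩
        obtain ⟨v, hv⟩ : ∃ v : ℕ, z + D = -(v : ℤ) - 1 := ⟨(-(z + D) - 1).toNat, by omega⟩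
        rw [R_neg (v := v + D) (by push_cast; omega), R_neg hv] at h0
        rw [R_neg hv, R_nonneg hp] at h1
        rw [R_nonneg hp, R_nonneg (v := p + D) (by push_cast; omega)] at h2
        obtain ⟨s, hs1, hs2⟩ := cross22 hcc (by omega) he h0 h1 h2
        exact ⟨s, w, e, he, hs1, hs2, hz, hz2⟩
      · exfalso
        obtain ⟨x, hx⟩ : ∃ x : ℕ, z + 2 * D = -(x : ℤ) - 1 := ⟨(-(z + 2 * D) - 1).toNat, by omega⟩
        rw [R_neg (v := x + D + D) (by push_cast; omega), R_neg (v := x + D) (by push_cast; omega)]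
          at h0
        rw [R_neg (v := x + D) (by push_cast; omega), R_neg hx] at h1
        exact no_dec hD h1 h0

/-- no five term progression with positive difference -/
theorem inc5 {c c' D : ℕ} {z : ℤ} (hcc : c + c' = 1) (hD : 0 < D)
    (h0 : R K c c' z < R K c c' (z + D)) (h1 : R K c c' (z + D) < R K c c' (z + 2 * D))
    (h2 : R K c c' (z + 2 * D) < R K c c' (z + 3 * D))
    (h3 : R K c c' (z + 3 * D) < R K c c' (z + 4 * D)) : False := by
  obtain ⟨_, _, _, _, _, _, hz, hz2⟩ := inc4 hcc hD h0 h1 h2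
  obtain ⟨_, _, _, _, _, _, hz3, _⟩ := inc4 (z := z + D) hcc hD
    (by rw [show z + D + D = z + 2 * D by ring]; exact h1)
    (by rw [show z + D + D = z + 2 * D by ring, show z + D + 2 * D = z + 3 * D by ring]; exact h2)
    (by rw [show z + D + 2 * D = z + 3 * D by ring, show z + D + 3 * D = z + 4 * D by ring]
        exact h3)
  obtain ⟨p, hp⟩ : ∃ p : ℕ, z + 2 * D = p := ⟨(z + 2 * D).toNat, by omega⟩
  obtain ⟨v, hv⟩ : ∃ v : ℕ, z + D = -(v : ℤ) - 1 := ⟨(-(z + D) - 1).toNat, by omega⟩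
  rw [R_neg (v := v + D) (by push_cast; omega), R_neg hv] at h0
  rw [R_neg hv, R_nonneg hp] at h1
  rw [R_nonneg hp, R_nonneg (v := p + D) (by push_cast; omega)] at h2
  rw [R_nonneg (v := p + D) (by push_cast; omega),
    R_nonneg (v := p + D + D) (by push_cast; omega)] at h3
  exact cross23 hcc (by omega) h0 h1 h2 h3

end Pool.MP_576b63_co.ZZ
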