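import Pool.Agent.Lib.MP_576b63_co.ZOrder

/-! Progressions on one side and progressions which use both sides. A negative integer `z` is
represented by `-z - 1` on its side. -/

set_option autoImplicit false

namespace Pool.MP_576b63_co.ZZ

open Pool.MP_576b63_co

variable {K : ℕ}

/-- no monotone three term progression inside a level -/
theorem no_three {c x d : ℕ} (hd : 0 < d) (h1 : sg K c (x + d) = sg K c x)
    (h2 : sg K c (x + d + d) = sg K c x) :
    ¬ (F K c x < F K c (x + d) ∧ F K c (x + d) < F K c (x + d + d)) ∧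
    ¬ (F K c (x + d) < F K c x ∧ F K c (x + d + d) < F K c (x + d)) := by
  obtain ⟨w, e, he⟩ := exists_two_pow_mul hd
  have hw : w < kk K (sg K c x + 1) := lt_kk_of_sg he h1.le
  have hm1 : (x + d) % 2 ^ w = x % 2 ^ w := by rw [he]; exact mod_add w e x
  have hm2 : (x + d + d) % 2 ^ w = (x + d) % 2 ^ w := by
    conv_lhs => rw [he]
    conv_rhs => rw [he]
    exact mod_add w e _
  have hb1 : bt w (x + d) = 1 - bt w x := by rw [he]; exact bt_add w e x
  have hb2 : bt w (x + d + d) = 1 - bt w (x + d) := by
    conv_lhs => rw [he]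
    conv_rhs => rw [he]
    exact bt_add w e _
  have hx := bt_lt w x
  constructor
  · rintro ⟨h3, h4⟩
    have c1 := cmp rfl h1 hm1.symm hb1 hw h3
    have c2 := cmp h1 h2 hm2.symm hb2 hw h4
    rcases lt_or_ge w (kk K (sg K c x)) with h | h
    · have := c1.1 h; have := c2.1 h; omega
    · have := c1.2 h; have := c2.2 h; omega
  · rintro ⟨h3, h4⟩
    have c1 := cmp h1 rfl hm1 (by omega) hw h3
    have c2 := cmp h2 h1 hm2 (by omega) hw h4
    rcases lt_or_ge w (kk K (sg K c x)) with h | h
    · have := c1.1 h; have := c2.1 h; omega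
    · have := c1.2 h; have := c2.2 h; omega

theorem sg_congr {c x y : ℕ} (h : lev K c x = lev K c y) : sg K c x = sg K c y := by
  unfold sg; rw [h]

theorem lev_le_of_F_le {c x y : ℕ} (h : F K c x ≤ F K c y) : lev K c x ≤ lev K c y := by
  have := sg_le_of_F_le h
  unfold sg at this
  omega

theorem lt_lev_of_S_le {c x n : ℕ} (h : S K (2 * n + c) ≤ x) : n < lev K c x := by
  have := lt_sg_of_S_le (c := c) h
  unfold sg at this
  omega

theorem lt_lev_of_three_le {c x y n : ℕ} (h : Raised K (2 * (n + 1) + c) y) (hy : y ≤ 3 * x) :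
    n < lev K c x := by
  apply lt_lev_of_S_le
  have h2 := S_le_of_raised (n := 2 * n + 1 + c) (x := y) (by
    rw [show 2 * n + 1 + c + 1 = 2 * (n + 1) + c by ring]; exact h)
  have h3 : S K (2 * n + c) ≤ S K (2 * n + 1 + c) := S_strictMono.monotone (by omega)
  omega

/-- no increasing four term progression -/
theorem no_inc {c a d : ℕ} (hd : 0 < d) (h01 : F K c a < F K c (a + d))
    (h12 : F K c (a + d) < F K c (a + d + d))
    (h23 : F K c (a + d + d) < F K c (a + d + d + d)) : False := by
  obtain ⟨w, e, he⟩ := exists_two_pow_mul hd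
  have hm : ∀ x, (x + d) % 2 ^ w = x % 2 ^ w := fun x => by rw [he]; exact mod_add w e x
  have hb : ∀ x, bt w (x + d) = 1 - bt w x := fun x => by rw [he]; exact bt_add w e x
  have l01 := lev_le_of_F_le h01.le
  have l12 := lev_le_of_F_le h12.le
  have l23 := lev_le_of_F_le h23.le
  have hb1 := hb a
  have hb2 := hb (a + d)
  have hb3 := hb (a + d + d)
  have hm1 := hm a
  have hm2 := hm (a + d)
  have hm3 := hm (a + d + d)
  have hba := bt_lt w a
  have ht1 : ¬ (lev K c (a + d) = lev K c a ∧ lev K c (a + d + d) = lev K c a) := fun h =>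
    (no_three hd (sg_congr h.1) (sg_congr h.2)).1 ⟨h01, h12⟩
  have ht2 : ¬ (lev K c (a + d + d) = lev K c (a + d) ∧
      lev K c (a + d + d + d) = lev K c (a + d)) := fun h =>
    (no_three hd (sg_congr h.1) (sg_congr h.2)).1 ⟨h12, h23⟩
  obtain ⟨n, hn⟩ : ∃ n, lev K c (a + d + d + d) = n + 1 := ⟨lev K c (a + d + d + d) - 1, by omega⟩
  have hR3 : Raised K (2 * n + c) (a + d + d + d) := raised_of_lt_lev (by omega)
  -- the second term has level `n`
  have l1 : lev K c (a + d) = n := by
    have h1 : n ≤ lev K c (a + d) := by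
      rcases n with _ | n
      · exact Nat.zero_le _
      · exact lt_lev_of_three_le hR3 (by omega)
    omega
  have s1 : sg K c (a + d) = 2 * n + c := by unfold sg; rw [l1]
  have hw : w < kk K (2 * n + c + 1) := lt_kk_of_sg he s1.le
  have hN1 : ¬ Raised K (2 * n + c) (a + d) := s1 ▸ not_raised_sg c (a + d)
  rcases (by omega : lev K c (a + d + d) = n ∨ lev K c (a + d + d) = n + 1) with l2 | l2
  · -- the first term has level less than `n`
    have l0 : lev K c a < n := by omega
    have s2 : sg K c (a + d + d) = 2 * n + c := by unfold sg; rw [l2]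
    have hN2 : ¬ Raised K (2 * n + c) (a + d + d) := s2 ▸ not_raised_sg c (a + d + d)
    have c' := cmp s1 s2 hm2.symm hb2 hw h12
    rcases lt_or_ge w (kk K (2 * n + c)) with h | h
    · have c1 := c'.1 h
      have h4 := four_thr_le h hm3.symm (by omega : bt w (a + d + d) = 0) (by omega)
      unfold Raised at hN2 hR3
      omega
    · have c1 := c'.2 h
      have h5 : bt w a = 1 := by omega
      obtain ⟨n, rfl⟩ : ∃ n', n = n' + 1 := ⟨n - 1, by omega⟩
      have h6 : a < S K (2 * n + 1 + c) := lt_S_of_sg_le (c := c) (by unfold sg; omega)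
      have h7 : a < 2 ^ w := by
        have : S K (2 * n + 1 + c) < 2 ^ S K (2 * n + 1 + c) := Nat.lt_two_pow_self
        have h8 : 2 ^ S K (2 * n + 1 + c) ≤ 2 ^ w := by
          apply Nat.pow_le_pow_right (by norm_num)
          rw [show 2 * (n + 1) + c = 2 * n + 1 + c + 1 by ring] at h
          exact h
        omega
      unfold bt at h5
      rw [Nat.div_eq_of_lt h7] at h5
      omega
  · have s2 : sg K c (a + d + d) = 2 * (n + 1) + c := by unfold sg; rw [l2]
    have s3 : sg K c (a + d + d + d) = 2 * (n + 1) + c := by unfold sg; rw [hn]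
    have hR2 : Raised K (2 * n + c) (a + d + d) := raised_of_lt_lev (by omega)
    have hw1 : w < kk K (2 * (n + 1) + c) := hw.trans_le (kk_mono (by omega))
    have hw2 : w < kk K (2 * (n + 1) + c + 1) := hw1.trans_le (kk_le_succ _)
    have c' := cmp s2 s3 hm3.symm hb3 hw2 h23
    have c1 := c'.1 hw1
    rcases lt_or_ge w (kk K (2 * n + c)) with h | h
    · have h4 := four_thr_le h hm2.symm (by omega : bt w (a + d) = 0) (by omega)
      unfold Raised at hN1 hR2
      omega
    · have h5 : bt w a = 1 := by omega
      have h6 : 2 ^ w ≤ a := by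
        by_contra h7
        unfold bt at h5
        rw [Nat.div_eq_of_lt (by omega)] at h5
        omega
      have l0 : lev K c a = n := by
        rcases n with _ | n
        · omega
        · have h7 : S K (2 * n + 1 + c) ≤ a := by
            have : S K (2 * n + 1 + c) < 2 ^ S K (2 * n + 1 + c) := Nat.lt_two_pow_self
            have h8 : 2 ^ S K (2 * n + 1 + c) ≤ 2 ^ w := by
              apply Nat.pow_le_pow_right (by norm_num)
              rw [show 2 * (n + 1) + c = 2 * n + 1 + c + 1 by ring] at h
              exact h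
            omega
          have h9 : S K (2 * n + c) ≤ S K (2 * n + 1 + c) := S_strictMono.monotone (by omega)
          have := lt_lev_of_S_le (h9.trans h7)
          omega
      have s0 : sg K c a = 2 * n + c := by unfold sg; rw [l0]
      have c2 := (cmp s0 s1 hm1.symm hb1 hw h01).2 h
      omega

/-- no decreasing three term progression -/
theorem no_dec {c x d : ℕ} (hd : 0 < d) (h12 : F K c (x + d) < F K c x)
    (h23 : F K c (x + d + d) < F K c (x + d)) : False := by
  obtain ⟨w, e, he⟩ := exists_two_pow_mul hd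
  have hm : ∀ x, (x + d) % 2 ^ w = x % 2 ^ w := fun x => by rw [he]; exact mod_add w e x
  have hb : ∀ x, bt w (x + d) = 1 - bt w x := fun x => by rw [he]; exact bt_add w e x
  have l12 := lev_le_of_F_le h12.le
  have l23 := lev_le_of_F_le h23.le
  have hb2 := hb x
  have hb3 := hb (x + d)
  have hm2 := hm x
  have hm3 := hm (x + d)
  have hba := bt_lt w x
  have ht2 : ¬ (lev K c (x + d) = lev K c x ∧ lev K c (x + d + d) = lev K c x) := fun h =>
    (no_three hd (sg_congr h.1) (sg_congr h.2)).2 ⟨h12, h23⟩
  obtain ⟨n, hn⟩ : ∃ n, lev K c x = n + 1 := ⟨lev K c x - 1, by omega⟩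
  have hR1 : Raised K (2 * n + c) x := raised_of_lt_lev (by omega)
  -- the third term has level `n`
  have l3 : lev K c (x + d + d) = n := by
    have h1 : n ≤ lev K c (x + d + d) := by
      rcases n with _ | n
      · exact Nat.zero_le _
      · exact lt_lev_of_three_le hR1 (by omega)
    omega
  have s3 : sg K c (x + d + d) = 2 * n + c := by unfold sg; rw [l3]
  have hN3 : ¬ Raised K (2 * n + c) (x + d + d) := s3 ▸ not_raised_sg c (x + d + d)
  have hw : w < kk K (2 * n + c) := by
    by_contra h
    have h1 : thr K (2 * n + c) x = thr K (2 * n + c) (x + d + d) :=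
      thr_congr (by omega) ((hm3.trans hm2).symm)
    unfold Raised at hN3 hR1
    omega
  have hw1 : w < kk K (2 * n + c + 1) := hw.trans_le (kk_le_succ _)
  have hw0 : w < kk K (2 * (n + 1) + c) := hw.trans_le (kk_mono (by omega))
  have hw2 : w < kk K (2 * (n + 1) + c + 1) := hw0.trans_le (kk_le_succ _)
  rcases (by omega : lev K c (x + d) = n ∨ lev K c (x + d) = n + 1) with l2 | l2
  · have s2 : sg K c (x + d) = 2 * n + c := by unfold sg; rw [l2]
    have hN2 : ¬ Raised K (2 * n + c) (x + d) := s2 ▸ not_raised_sg c (x + d)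
    have c' := (cmp s3 s2 hm3 (by omega) hw1 h23).1 hw
    have h4 := four_thr_le hw hm2 (by omega : bt w (x + d) = 0) (by omega)
    unfold Raised at hN2 hR1
    omega
  · have s2 : sg K c (x + d) = 2 * (n + 1) + c := by unfold sg; rw [l2]
    have s1 : sg K c x = 2 * (n + 1) + c := by unfold sg; rw [hn]
    have hR2 : Raised K (2 * n + c) (x + d) := raised_of_lt_lev (by omega)
    have c' := (cmp s2 s1 hm2 (by omega) hw2 h12).1 hw0
    have h4 := four_thr_le hw hm3 (by omega : bt w (x + d + d) = 0) (by omega)
    unfold Raised at hN3 hR2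
    omega

end Pool.MP_576b63_co.ZZ
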