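import Pool.Agent.Lib.MP_576b63_co.Key

/-! Two interleaved orders of type omega on the natural numbers. The side `c` (`c = 0` or `c = 1`)
uses the stages `2 n + c`; the stages are separated. -/

set_option autoImplicit false

namespace Pool.MP_576b63_co.ZZ

open Pool.MP_576b63_co

/-- the largest threshold of stage `n`; the parameter `K` is the number of bits in stage `0` -/
def S (K : ℕ) : ℕ → ℕ
  | 0 => 4 ^ (2 ^ K - 1)
  | n + 1 => 3 * S K n * 4 ^ (2 ^ S K n - 1)

/-- the number of bits used in stage `n` -/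
def kk (K : ℕ) : ℕ → ℕ
  | 0 => K
  | n + 1 => S K n

/-- the smallest threshold of stage `n` -/
def TT (K : ℕ) : ℕ → ℕ
  | 0 => 1
  | n + 1 => 3 * S K n

variable {K : ℕ}

theorem S_eq (n : ℕ) : S K n = TT K n * 4 ^ (2 ^ kk K n - 1) := by
  cases n with
  | zero => simp [S, TT, kk]
  | succ n => rfl

theorem S_pos (n : ℕ) : 0 < S K n := by
  induction n with
  | zero => simp only [S]; positivity
  | succ n ih => simp only [S]; positivity

theorem three_S_le (n : ℕ) : 3 * S K n ≤ S K (n + 1) := by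
  simp only [S]
  exact Nat.le_mul_of_pos_right _ (by positivity)

theorem S_lt_succ (n : ℕ) : S K n < S K (n + 1) := by
  have := three_S_le (K := K) n
  have := S_pos (K := K) n
  omega

theorem S_strictMono : StrictMono (S K) := strictMono_nat_of_lt_succ S_lt_succ

theorem lt_S (n : ℕ) : n < S K n := by
  induction n with
  | zero => exact S_pos 0
  | succ n ih => have := S_lt_succ (K := K) n; omega

theorem kk_le_succ (n : ℕ) : kk K n ≤ kk K (n + 1) := by
  cases n with
  | zero =>
    simp only [kk, S]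
    have h1 : K < 2 ^ K := Nat.lt_two_pow_self
    have h2 : 2 ^ K - 1 < 4 ^ (2 ^ K - 1) := Nat.lt_pow_self (by norm_num)
    omega
  | succ n => simp only [kk]; exact (S_lt_succ n).le

theorem kk_mono : Monotone (kk K) := monotone_nat_of_le_succ kk_le_succ

/-- the thresholds are at most doubly exponential in the number of bits of the stage -/
theorem two_S_le (n : ℕ) : 2 * S K n ≤ 2 ^ 2 ^ (kk K n + 2) := by
  have hT : TT K n ≤ 3 * kk K n + 1 := by
    cases n with
    | zero => simp [TT]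
    | succ n => simp only [TT, kk]; omega
  rw [S_eq]
  generalize kk K n = k at *
  have h1 : k < 2 ^ k := Nat.lt_two_pow_self
  have h2 : 2 ^ k < 4 ^ 2 ^ k := Nat.lt_pow_self (by norm_num)
  have h3 : 4 ^ 2 ^ k = 4 * 4 ^ (2 ^ k - 1) := by
    rw [← pow_succ']
    congr 1
    omega
  have h4 : 2 ^ 2 ^ (k + 2) = 4 ^ 2 ^ k * 4 ^ 2 ^ k := by
    rw [← pow_add, show (4 : ℕ) = 2 ^ 2 by norm_num, ← pow_mul]
    congr 1
    ring
  rw [h4]
  calc 2 * (TT K n * 4 ^ (2 ^ k - 1)) ≤ 2 * ((3 * k + 1) * 4 ^ (2 ^ k - 1)) := by gcongr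
    _ ≤ 4 * (2 * k + 1) * 4 ^ (2 ^ k - 1) := by nlinarith [Nat.zero_le (4 ^ (2 ^ k - 1))]
    _ = (2 * k + 1) * 4 ^ 2 ^ k := by rw [h3]; ring
    _ ≤ 4 ^ 2 ^ k * 4 ^ 2 ^ k := by
      apply Nat.mul_le_mul_right
      have h5 : 1 ≤ 4 ^ (2 ^ k - 1) := Nat.one_le_pow _ _ (by norm_num)
      have h6 : 2 ^ k - 1 < 4 ^ (2 ^ k - 1) := Nat.lt_pow_self (by norm_num)
      omega

/-- the threshold of the class of `x` in stage `n` -/
def thr (K n x : ℕ) : ℕ := TT K n * 4 ^ key 0 (kk K n) x

theorem TT_le_thr (n x : ℕ) : TT K n ≤ thr K n x := Nat.le_mul_of_pos_right _ (by positivity)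

theorem thr_le_S (n x : ℕ) : thr K n x ≤ S K n := by
  rw [S_eq]
  apply Nat.mul_le_mul_left
  apply Nat.pow_le_pow_right (by norm_num)
  have := key_lt 0 (kk K n) x
  omega

theorem S_lt_thr (n x : ℕ) : 3 * S K n ≤ thr K (n + 1) x := TT_le_thr (n + 1) x

/-- `x` is raised in stage `n` -/
def Raised (K n x : ℕ) : Prop := thr K n x ≤ x

instance (n x : ℕ) : Decidable (Raised K n x) := by unfold Raised; infer_instance

theorem S_le_of_raised {n x : ℕ} (h : Raised K (n + 1) x) : 3 * S K n ≤ x := (S_lt_thr n x).trans h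

theorem raised_of_S_le {n x : ℕ} (h : S K n ≤ x) : Raised K n x := (thr_le_S n x).trans h

theorem raised_anti {n m x : ℕ} (h : Raised K m x) (hnm : n ≤ m) : Raised K n x := by
  rcases hnm.eq_or_lt with h1 | h1
  · rw [h1]; exact h
  · obtain ⟨m, rfl⟩ : ∃ m', m = m' + 1 := ⟨m - 1, by omega⟩
    apply raised_of_S_le
    have h2 := S_le_of_raised h
    have h3 : S K n ≤ S K m := S_strictMono.monotone (by omega)
    omega

theorem exists_not_raised (K c x : ℕ) : ∃ n, ¬ Raised K (2 * n + c) x := by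
  refine ⟨x + 1, fun h => ?_⟩
  have h1 := S_le_of_raised (raised_anti h (by omega : x + 1 ≤ 2 * (x + 1) + c))
  have h2 := lt_S (K := K) x
  omega

/-- the level of `x` on the side `c` -/
def lev (K c x : ℕ) : ℕ := Nat.find (exists_not_raised K c x)

/-- the stage of `x` on the side `c` -/
def sg (K c x : ℕ) : ℕ := 2 * lev K c x + c

theorem not_raised_sg (c x : ℕ) : ¬ Raised K (sg K c x) x := Nat.find_spec (exists_not_raised K c x)

theorem raised_of_lt_lev {c x n : ℕ} (h : n < lev K c x) : Raised K (2 * n + c) x := by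
  have := Nat.find_min (exists_not_raised K c x) h
  rwa [not_not] at this

/-- a number that is raised in a stage has a later stage, on each side -/
theorem lt_sg_of_raised {c x s : ℕ} (h : Raised K s x) : s < sg K c x := by
  by_contra h2
  exact not_raised_sg c x (raised_anti h (by omega))

theorem lt_sg_of_S_le {c x s : ℕ} (h : S K s ≤ x) : s < sg K c x := lt_sg_of_raised (raised_of_S_le h)

theorem lt_S_sg (c x : ℕ) : x < S K (sg K c x) := by
  by_contra h
  exact not_raised_sg (K := K) c x (raised_of_S_le (by omega))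

theorem lt_S_of_sg_le {c x s : ℕ} (h : sg K c x ≤ s) : x < S K s :=
  (lt_S_sg c x).trans_le (S_strictMono.monotone h)

theorem sg_le_of_lt {c x n s : ℕ} (hs : s + 1 = 2 * n + c) (h : x < 3 * S K s) :
    sg K c x ≤ s + 1 := by
  by_contra h2
  have h3 : n < lev K c x := by unfold sg at h2; omega
  have h4 := raised_of_lt_lev h3
  rw [← hs] at h4
  have := S_le_of_raised h4
  omega

/-- the rank function of the side `c` -/
def F (K c x : ℕ) : ℕ := 2 ^ kk K (sg K c x + 1) + key (kk K (sg K c x)) (kk K (sg K c x + 1)) x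

theorem F_lt_of_sg_lt {c c' x y : ℕ} (h : sg K c x < sg K c' y) : F K c x < F K c' y := by
  unfold F
  have h1 := key_lt (kk K (sg K c x)) (kk K (sg K c x + 1)) x
  have h2 : 2 ^ (kk K (sg K c x + 1) + 1) ≤ 2 ^ kk K (sg K c' y + 1) := by
    apply Nat.pow_le_pow_right (by norm_num)
    simp only [kk]
    exact S_strictMono h
  rw [pow_succ] at h2
  omega

theorem sg_le_of_F_le {c c' x y : ℕ} (h : F K c x ≤ F K c' y) : sg K c x ≤ sg K c' y := by
  by_contra h2
  have := F_lt_of_sg_lt (K := K) (c := c') (c' := c) (x := y) (y := x) (by omega)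
  omega

theorem F_injective (c : ℕ) : Function.Injective (F K c) := by
  intro x y h
  have h1 : sg K c x = sg K c y := le_antisymm (sg_le_of_F_le h.le) (sg_le_of_F_le h.ge)
  have h2 : key (kk K (sg K c x)) (kk K (sg K c x + 1)) x =
      key (kk K (sg K c x)) (kk K (sg K c x + 1)) y := by
    unfold F at h
    rw [← h1] at h
    omega
  have h3 := key_inj h2
  have hx : x < 2 ^ kk K (sg K c x + 1) := (lt_S_sg c x).trans Nat.lt_two_pow_self
  have hy : y < 2 ^ kk K (sg K c x + 1) := by
    rw [h1]; exact (lt_S_sg c y).trans Nat.lt_two_pow_self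
  rwa [Nat.mod_eq_of_lt hx, Nat.mod_eq_of_lt hy] at h3

/-- comparison inside a level at a low bit: the number with bit `0` is later -/
theorem F_low {c x y s w : ℕ} (hx : sg K c x = s) (hy : sg K c y = s) (hw : w < kk K s)
    (h : x % 2 ^ w = y % 2 ^ w) (hbx : bt w x = 0) (hby : bt w y = 1) : F K c y < F K c x := by
  unfold F
  rw [hx, hy]
  have := key_lt_key_low (m := kk K (s + 1)) (hw.trans_le (kk_le_succ s)) hw h hbx hby
  omega

/-- comparison inside a level at a high bit: the number with bit `1` is later -/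
theorem F_high {c x y s w : ℕ} (hx : sg K c x = s) (hy : sg K c y = s) (hw : kk K s ≤ w)
    (hw' : w < kk K (s + 1)) (h : x % 2 ^ w = y % 2 ^ w) (hbx : bt w x = 0) (hby : bt w y = 1) :
    F K c x < F K c y := by
  unfold F
  rw [hx, hy]
  have := key_lt_key_high (m := kk K (s + 1)) hw' hw h hbx hby
  omega

/-- thresholds of two classes that differ first at a low bit -/
theorem four_thr_le {x y s w : ℕ} (hw : w < kk K s) (h : x % 2 ^ w = y % 2 ^ w) (hbx : bt w x = 0)
    (hby : bt w y = 1) : 4 * thr K s x ≤ thr K s y := by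
  unfold thr
  have h1 := key_lt_key_high (k := 0) (m := kk K s) hw (by omega) h hbx hby
  calc 4 * (TT K s * 4 ^ key 0 (kk K s) x) = TT K s * 4 ^ (key 0 (kk K s) x + 1) := by
        rw [pow_succ]; ring
    _ ≤ TT K s * 4 ^ key 0 (kk K s) y :=
      Nat.mul_le_mul_left _ (Nat.pow_le_pow_right (by norm_num) h1)

theorem key_congr {k m x y : ℕ} (h : x % 2 ^ m = y % 2 ^ m) : key k m x = key k m y := by
  induction m generalizing k x y with
  | zero => rfl
  | succ m ih =>
    obtain ⟨h1, h2⟩ := mod_two_of_mod h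
    simp only [key, h1, ih h2]

theorem thr_congr {x y s w : ℕ} (hw : kk K s ≤ w) (h : x % 2 ^ w = y % 2 ^ w) :
    thr K s x = thr K s y := by
  unfold thr
  rw [key_congr]
  have h1 : x % 2 ^ w % 2 ^ kk K s = x % 2 ^ kk K s := Nat.mod_mod_of_dvd _ (pow_dvd_pow 2 hw)
  have h2 : y % 2 ^ w % 2 ^ kk K s = y % 2 ^ kk K s := Nat.mod_mod_of_dvd _ (pow_dvd_pow 2 hw)
  rw [← h1, ← h2, h]

theorem exists_two_pow_mul {d : ℕ} (hd : 0 < d) : ∃ w e, d = 2 ^ w * (2 * e + 1) := by
  obtain ⟨w, m, hm, h⟩ := Nat.exists_eq_two_pow_mul_odd hd.ne'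
  obtain ⟨e, rfl⟩ := hm
  exact ⟨w, e, h⟩

theorem bt_add (w e x : ℕ) : bt w (x + 2 ^ w * (2 * e + 1)) = 1 - bt w x := by
  unfold bt
  rw [Nat.add_mul_div_left _ _ (by positivity)]
  omega

theorem mod_add (w e x : ℕ) : (x + 2 ^ w * (2 * e + 1)) % 2 ^ w = x % 2 ^ w :=
  Nat.add_mul_mod_self_left _ _ _

theorem cmp {c x y s w : ℕ} (hx : sg K c x = s) (hy : sg K c y = s) (h : x % 2 ^ w = y % 2 ^ w)
    (hb : bt w y = 1 - bt w x) (hw : w < kk K (s + 1)) (hF : F K c x < F K c y) :
    (w < kk K s → bt w x = 1) ∧ (kk K s ≤ w → bt w x = 0) := by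
  have hx2 := bt_lt w x
  constructor
  · intro hwk
    by_contra h1
    have h2 : bt w x = 0 := by omega
    have := F_low hx hy hwk h h2 (by omega)
    omega
  · intro hwk
    by_contra h1
    have h2 : bt w x = 1 := by omega
    have := F_high hy hx hwk hw h.symm (by omega) h2
    omega

theorem lt_kk_of_sg {c x d w e s : ℕ} (hd : d = 2 ^ w * (2 * e + 1)) (h : sg K c (x + d) ≤ s) :
    w < kk K (s + 1) := by
  have h1 := lt_S_of_sg_le h
  have h2 : w < 2 ^ w := Nat.lt_two_pow_self
  have h3 : 2 ^ w ≤ d := by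
    rw [hd]; exact Nat.le_mul_of_pos_right _ (by omega)
  simp only [kk]
  omega

end Pool.MP_576b63_co.ZZ
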